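import Pool.Agent.helper69.AD.GS5

/-!
Module FC7 of the project ad (MP_a29257_gt): length and crossing angles of a closed geodesic.
-/

open scoped MatrixGroups LinearAlgebra.Projectivization
open Matrix UpperHalfPlane
open Pool.Agent.helper73.AD (PS Arc Word sg AData Family PreFamily Cone bs)

namespace AdSBend

open LeafSystem

theorem FC7_trc_neg (g : SL(2, ℝ)) : trc (-g) = -trc g := by
  simp only [trc, Matrix.SpecialLinearGroup.coe_neg, Matrix.neg_apply]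
  ring

theorem FC7_abs {g h : SL(2, ℝ)} (hgh : PEq g h) : |trc g| = |trc h| := by
  rcases hgh with rfl | rfl
  · rfl
  · rw [FC7_trc_neg, abs_neg]

theorem FC7_trc_trace (g : SL(2, ℝ)) : trc g = (g.1).trace := by
  rw [Matrix.trace_fin_two]
  rfl

theorem FC7_trc_conj (g F : SL(2, ℝ)) : trc (F⁻¹ * g * F) = trc g := by
  rw [FC7_trc_trace, FC7_trc_trace]
  have h1 : (F⁻¹ * g * F).1 = (F⁻¹ * g).1 * F.1 := rfl
  rw [h1, Matrix.trace_mul_comm]
  have h2 : F.1 * (F⁻¹ * g).1 = (F * (F⁻¹ * g)).1 := rfl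
  rw [h2, mul_inv_cancel_left]

/-- the axis of an element with the frame `F` -/
theorem FC7_axis (hT : TW1_stmt) {a F : SL(2, ℝ)} (ha : 2 < |trc a|)
    (h : pos a = F * Dm (len a) * F⁻¹) : axis a = F.1 * hM * (F⁻¹).1 := by
  obtain ⟨-, -, -, h4⟩ := hT
  obtain ⟨-, -, -, hlen, htr⟩ := h4 a ha
  have hs : Real.sinh (len a / 2) ≠ 0 := by
    have : 0 < Real.sinh (len a / 2) := Real.sinh_pos_iff.2 (by linarith)
    exact this.ne'
  have hD : (Dm (len a)).1 = Real.cosh (len a / 2) • (1 : Matrix (Fin 2) (Fin 2) ℝ)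
      + Real.sinh (len a / 2) • hM := by
    ext i j
    fin_cases i <;> fin_cases j <;>
      simp [Dm, hM, Real.cosh_eq, Real.sinh_eq] <;> ring
  have hp : (pos a).1 = F.1 * (Dm (len a)).1 * (F⁻¹).1 := by rw [h]; rfl
  have hFF : F.1 * (F⁻¹).1 = 1 := by
    have : F.1 * (F⁻¹).1 = (F * F⁻¹).1 := rfl
    rw [this, mul_inv_cancel]; rfl
  unfold axis
  rw [hp, hD, Matrix.mul_add, Matrix.add_mul, Matrix.mul_smul, Matrix.mul_smul, Matrix.mul_one,
    Matrix.smul_mul, Matrix.smul_mul, hFF, htr]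
  have : (2 * Real.cosh (len a / 2)) / 2 = Real.cosh (len a / 2) := by ring
  rw [this, add_sub_cancel_left, smul_smul, inv_mul_cancel₀ hs, one_smul]

theorem FC7 (hTW : TW1_stmt) (hA1 : FA1_stmt) (hA4 : FA4_stmt) (hB4 : FB4_stmt)
    (hC4 : FC4_stmt) (hC5 : FC5_stmt) (hC6 : FC6_stmt) : FC7_stmt := by
  intro Γ hΓ S J D l w W r z hl hS hz
  obtain ⟨F, G, M, t, hF, hG, hFG, hGF, hper, hMp, htp, hMt, hpos, hcp⟩ :=
    hC4 Γ hΓ S J D l w W r z hl hS hz
  have hcone := ((hB4 Γ hΓ S J D r hS).2.2.1 z hz).1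
  have hent : ∀ i : Fin (w.n + 1), t (i.val : ℤ) = w.t i z ∧
      ∀ s s', (M (i.val : ℤ)).1 (bi s) (bi s') = Real.exp ((w.A i).g s s' z.1) := by
    intro i
    refine ⟨(hMt i).1, fun s s' => ?_⟩
    rw [(hMt i).2]
    exact hA4 J (w.A i) z.1 (fun j => hcone j) s s'
  obtain ⟨htr, htr2⟩ := hC5 J w z M t hMp htp hent
  obtain ⟨-, h2, -, h4⟩ := hC6
  have hB : ∀ i : ℤ, PosMat (cp M t i (w.n + 1)) := fun i => h4 M t i w.n hpos
  have hBt : ∀ i : ℤ, 2 < trc (cp M t i (w.n + 1)) := fun i => h2 _ (hB i)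
  have habs : |trc (r (gen Γ l))| = w.F z := by
    have e1 := FC7_abs (hcp 0)
    rw [FC7_trc_conj, abs_of_pos (by linarith [hBt 0] : 0 < trc (cp M t 0 (w.n + 1))), htr] at e1
    exact e1
  have hF2 : 2 < w.F z := by
    have := hBt 0
    rwa [htr] at this
  have hgt : 2 < |trc (r (gen Γ l))| := by rw [habs]; exact hF2
  have hH : w.H z = len (r (gen Γ l)) := by
    unfold Word.H len
    rw [habs]
  refine ⟨hgt, habs, hH, ?_⟩
  intro i
  obtain ⟨-, -, -, -, hSD, h6⟩ := hA1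
  -- the leaf
  have hmem : W.A (i.val : ℤ) ∈ S.L := (W.mem _).1
  have ha2 : 2 < |trc (r (gen Γ (W.A (i.val : ℤ))))| := hS.1.2.1 _ hmem
  obtain ⟨d, hd, hpa, -⟩ := hF (i.val : ℤ)
  have hax := FC7_axis hTW ha2 hpa
  -- the geodesic
  set g := r (gen Γ l) with hg
  set B := cp M t (i.val : ℤ) (w.n + 1) with hBdef
  set Fi := F (i.val : ℤ) with hFi
  have hposB : pos B = B := by
    unfold pos
    rw [if_pos (by linarith [hBt (i.val : ℤ)])]
  have hposg : pos g = Fi * B * Fi⁻¹ := by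
    have e1 : pos (Fi⁻¹ * g * Fi) = Fi⁻¹ * pos g * Fi := by
      have := (h6 g Fi⁻¹ hgt).2.2.2.1
      rwa [inv_inv] at this
    have e2 : pos (Fi⁻¹ * g * Fi) = B := by
      have hBgt : 2 < |trc B| := lt_of_lt_of_le (hBt (i.val : ℤ)) (le_abs_self _)
      rcases hcp (i.val : ℤ) with h | h
      · rw [h]; exact hposB
      · rw [h, (h6 B 1 hBgt).2.2.2.2.2.1]; exact hposB
    rw [e1] at e2
    rw [← e2]
    group
  have hmat : (pos g).1 = Fi.1 * B.1 * (Fi⁻¹).1 := by rw [hposg]; rfl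
  have hFF : (Fi⁻¹).1 * Fi.1 = 1 := by
    have : (Fi⁻¹).1 * Fi.1 = (Fi⁻¹ * Fi).1 := rfl
    rw [this, inv_mul_cancel]; rfl
  have hFF' : Fi.1 * (Fi⁻¹).1 = 1 := by
    have : Fi.1 * (Fi⁻¹).1 = (Fi * Fi⁻¹).1 := rfl
    rw [this, mul_inv_cancel]; rfl
  have htrM : (hM : Matrix (Fin 2) (Fin 2) ℝ).trace = 0 := by
    simp [hM, Matrix.trace_fin_two]
  have hip : ip (axis g) (axis (r (gen Γ (W.A (i.val : ℤ))))) =
      (Real.sinh (len g / 2))⁻¹ * (hM * B.1).trace / 2 := by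
    unfold ip
    rw [hax]
    unfold axis
    rw [hmat, Matrix.smul_mul, Matrix.trace_smul, Matrix.sub_mul, Matrix.trace_sub,
      Matrix.smul_mul, Matrix.one_mul, Matrix.trace_smul]
    have e1 : (Fi.1 * hM * (Fi⁻¹).1).trace = 0 := by
      rw [Matrix.trace_mul_comm, ← Matrix.mul_assoc, hFF, Matrix.one_mul, htrM]
    have e2 : (Fi.1 * B.1 * (Fi⁻¹).1 * (Fi.1 * hM * (Fi⁻¹).1)).trace = (hM * B.1).trace := by
      have : Fi.1 * B.1 * (Fi⁻¹).1 * (Fi.1 * hM * (Fi⁻¹).1) =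
          Fi.1 * (B.1 * hM) * (Fi⁻¹).1 := by
        calc _ = Fi.1 * B.1 * ((Fi⁻¹).1 * Fi.1) * hM * (Fi⁻¹).1 := by
              simp only [Matrix.mul_assoc]
          _ = _ := by rw [hFF]; simp only [Matrix.mul_assoc, Matrix.mul_one, Matrix.one_mul]
      rw [this, Matrix.trace_mul_comm, ← Matrix.mul_assoc, hFF, Matrix.one_mul,
        Matrix.trace_mul_comm]
    rw [e1, e2]
    simp only [smul_eq_mul, mul_zero, sub_zero]
  have hct : w.ct i z = -(∑ σ : Fin (w.n + 1) → Bool, bs (σ i) * w.W σ z) /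
      (2 * Real.sinh (w.H z / 2)) := rfl
  rw [hct, ← htr2 i, hip, hH]
  have hs : Real.sinh (len g / 2) ≠ 0 := by
    have hl' : 0 < len g := (h6 g 1 hgt).2.2.2.2.2.2
    exact (Real.sinh_pos_iff.2 (by linarith)).ne'
  rw [← hBdef]
  field_simp

end AdSBend
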