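import Pool.Agent.helper69.AD.GS3

/-!
Module HX7 of the project ad (MP_a29257_gt): uniqueness of the hexagons at a leaf.
-/

open scoped MatrixGroups LinearAlgebra.Projectivization
open Matrix UpperHalfPlane

namespace AdSBend

open LeafSystem

/-- properties of a linear coordinate on the complement of the ideal point `o` -/
def HX7_P (o : Bd) (φ : Bd → ℝ) : Prop :=
  (∀ a b, a ≠ o → b ≠ o → (Cyc o a b ↔ φ a < φ b)) ∧
  (∀ a b c, a ≠ o → b ≠ o → c ≠ o → (Cyc a b c ↔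
    (φ a < φ b ∧ φ b < φ c) ∨ (φ b < φ c ∧ φ c < φ a) ∨ (φ c < φ a ∧ φ a < φ b)))

theorem HX7_face (hB4 : BD4_stmt) {o e : Bd} {φ : Bd → ℝ} (hφ : HX7_P o φ) {p : Bd × Bd}
    (h : Facing (e, o) p) : p.1 ≠ o ∧ p.2 ≠ o ∧ e ≠ o ∧ φ p.1 < φ p.2 ∧ φ p.2 < φ e := by
  obtain ⟨h1, h2⟩ := h
  obtain ⟨hne, hrot, -, -, htr, -⟩ := hB4
  simp only at h1 h2
  have e1 := hne _ _ _ h1
  have e2 := hne _ _ _ h2
  have h3 := hrot _ _ _ h1
  have h4 := htr _ _ _ _ h1 h2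
  have e3 := hne _ _ _ h4.1
  have h5 := hrot _ _ _ h4.1
  refine ⟨fun h => e1.2.1 h.symm, fun h => e3.2.1 h.symm, e1.1, ?_, ?_⟩
  · exact (hφ.1 _ _ (fun h => e1.2.1 h.symm) (fun h => e3.2.1 h.symm)).1 h4.2
  · exact (hφ.1 _ _ (fun h => e3.2.1 h.symm) e1.1).1 h5

theorem HX7_core1 (hB4 : BD4_stmt) (hB3 : BD3_stmt) {o e : Bd} {p w u : Bd × Bd}
    {b' : Bd} (hp : Facing (e, o) p) (hw : Facing (e, o) w) (hu : Facing (e, o) u)
    (h1 : Cyc e p.1 w.1) (h2 : Cyc e w.1 u.1)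
    (hbb : Cyc o u.1 b') :
    Cyc p.1 w.1 u.1 ∧ Cyc p.1 u.1 b' := by
  obtain ⟨φ, -, -, g3, g4, -⟩ := hB3 o
  have hφ : HX7_P o φ := ⟨g3, g4⟩
  obtain ⟨p1, p2, he, p3, p4⟩ := HX7_face hB4 hφ hp
  obtain ⟨w1, w2, -, w3, w4⟩ := HX7_face hB4 hφ hw
  obtain ⟨u1, u2, -, u3, u4⟩ := HX7_face hB4 hφ hu
  have d1 : b' ≠ o := (hB4.1 _ _ _ hbb).2.2
  have d2 := (hφ.1 _ _ u1 d1).1 hbb
  have k1 := (hφ.2 _ _ _ he p1 w1).1 h1
  have k2 := (hφ.2 _ _ _ he w1 u1).1 h2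
  have l1 : φ p.1 < φ w.1 := by
    rcases k1 with k1 | k1 | k1
    · linarith [k1.1, k1.2]
    · exact k1.1
    · linarith [k1.1, k1.2]
  have l2 : φ w.1 < φ u.1 := by
    rcases k2 with k1 | k1 | k1
    · linarith [k1.1, k1.2]
    · exact k1.1
    · linarith [k1.1, k1.2]
  constructor
  · rw [hφ.2 _ _ _ p1 w1 u1]
    left
    constructor <;> linarith
  · rw [hφ.2 _ _ _ p1 u1 d1]
    left
    constructor <;> linarith

theorem HX7_core2 (hB4 : BD4_stmt) (hB3 : BD3_stmt) {o e : Bd} {p w u : Bd × Bd}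
    {b' : Bd} (hp : Facing (e, o) p) (hw : Facing (e, o) w) (hu : Facing (e, o) u)
    (h1 : Cyc e w.1 p.1) (h2 : Cyc e u.1 w.1)
    (hbb : Cyc o b' u.1) :
    Cyc p.1 b' u.1 ∧ Cyc p.1 u.1 w.1 := by
  obtain ⟨φ, -, -, g3, g4, -⟩ := hB3 o
  have hφ : HX7_P o φ := ⟨g3, g4⟩
  obtain ⟨p1, p2, he, p3, p4⟩ := HX7_face hB4 hφ hp
  obtain ⟨w1, w2, -, w3, w4⟩ := HX7_face hB4 hφ hw
  obtain ⟨u1, u2, -, u3, u4⟩ := HX7_face hB4 hφ hu
  have d1 : b' ≠ o := fun h => (hB4.1 _ _ _ hbb).1 h.symm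
  have d2 := (hφ.1 _ _ d1 u1).1 hbb
  have k1 := (hφ.2 _ _ _ he w1 p1).1 h1
  have k2 := (hφ.2 _ _ _ he u1 w1).1 h2
  have l1 : φ w.1 < φ p.1 := by
    rcases k1 with k1 | k1 | k1
    · linarith [k1.1, k1.2]
    · exact k1.1
    · linarith [k1.1, k1.2]
  have l2 : φ u.1 < φ w.1 := by
    rcases k2 with k1 | k1 | k1
    · linarith [k1.1, k1.2]
    · exact k1.1
    · linarith [k1.1, k1.2]
  constructor
  · rw [hφ.2 _ _ _ p1 d1 u1]
    right; left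
    constructor <;> linarith
  · rw [hφ.2 _ _ _ p1 u1 w1]
    right; left
    constructor <;> linarith

theorem HX7_ga_mul (g h : SL(2, ℝ)) (p : Bd × Bd) : ga (g * h) p = ga g (ga h p) := by
  show (_, _) = (_, _)
  rw [mul_smul, mul_smul]

theorem HX7_ga_one (p : Bd × Bd) : ga (1 : SL(2, ℝ)) p = p := by
  show (_, _) = _
  rw [one_smul, one_smul]

/-- powers of the generator fix the leaf -/
theorem HX7_fix {g : SL(2, ℝ)} {p : Bd × Bd} (h : Attracts g p) (k : ℤ) : ga (g ^ k) p = p := by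
  have h1 : ga g p = p := by
    show (_, _) = _
    rw [h.2.1, h.2.2.1]
  have h2 : ga g⁻¹ p = p := by
    have : ga g⁻¹ (ga g p) = p := by
      rw [← HX7_ga_mul, inv_mul_cancel, HX7_ga_one]
    rwa [h1] at this
  induction k using Int.induction_on with
  | zero => rw [zpow_zero, HX7_ga_one]
  | succ i ih => rw [_root_.zpow_add_one, HX7_ga_mul, h1, ih]
  | pred i ih => rw [_root_.zpow_sub_one, HX7_ga_mul, h2, ih]

/-- the shifts of a hexagon are hexagons -/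
theorem HX7_shift (h1 : HX1_stmt) (hG : GM1_stmt) {Γ : Subgroup SL(2, ℝ)}
    (hΓ : IsClosedSurfaceGroup Γ) (S : LeafSystem Γ) {p x y : Bd × Bd} (hh : S.Hex p x y)
    (k : ℤ) : S.Hex p (ga (gen Γ p ^ k) x) (ga (gen Γ p ^ k) y) ∧
      S.Hex p (ga (gen Γ p ^ k) y) (ga (gen Γ p ^ (k + 1)) x) := by
  obtain ⟨-, hsh, -, heq, -⟩ := h1 Γ hΓ S
  have hg := hG Γ hΓ p (S.closed _ hh.1.1)
  have hk : gen Γ p ^ k ∈ Γ := Γ.zpow_mem hg.1 k
  have hf := HX7_fix hg.2.1 k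
  constructor
  · have := heq _ hk p x y hh
    rwa [hf] at this
  · have := heq _ hk p y _ (hsh p x y hh)
    rw [hf, ← HX7_ga_mul, ← _root_.zpow_add_one] at this
    exact this

/-- the shifts of a hexagon are connected to it -/
theorem HX7_conn {Γ : Subgroup SL(2, ℝ)} (p x y : Bd × Bd) (k : ℤ) :
    HexConn Γ (p, x, y) (p, ga (gen Γ p ^ k) x, ga (gen Γ p ^ k) y) ∧
    HexConn Γ (p, x, y) (p, ga (gen Γ p ^ k) y, ga (gen Γ p ^ (k + 1)) x) := by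
  have up : ∀ a b : Bd × Bd, HexMove Γ (p, a, b) (p, b, ga (gen Γ p) a) :=
    fun a b => Or.inr (Or.inl rfl)
  have dn : ∀ a b : Bd × Bd, HexMove Γ (p, a, b) (p, ga (gen Γ p)⁻¹ b, a) :=
    fun a b => Or.inr (Or.inr rfl)
  have e1 : ∀ (j : ℤ) (a : Bd × Bd), ga (gen Γ p) (ga (gen Γ p ^ j) a) =
      ga (gen Γ p ^ (j + 1)) a := by
    intro j a
    rw [← HX7_ga_mul, ← _root_.zpow_one_add, add_comm]
  have e2 : ∀ (j : ℤ) (a : Bd × Bd), ga (gen Γ p)⁻¹ (ga (gen Γ p ^ j) a) =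
      ga (gen Γ p ^ (j - 1)) a := by
    intro j a
    rw [← HX7_ga_mul, ← _root_.zpow_neg_one, ← _root_.zpow_add, neg_add_eq_sub]
  have main : HexConn Γ (p, x, y) (p, ga (gen Γ p ^ k) x, ga (gen Γ p ^ k) y) := by
    induction k using Int.induction_on with
    | zero =>
      rw [zpow_zero, HX7_ga_one, HX7_ga_one]
      exact Relation.ReflTransGen.refl
    | succ i ih =>
      have m1 := up (ga (gen Γ p ^ (i : ℤ)) x) (ga (gen Γ p ^ (i : ℤ)) y)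
      have m2 := up (ga (gen Γ p ^ (i : ℤ)) y) (ga (gen Γ p) (ga (gen Γ p ^ (i : ℤ)) x))
      rw [e1] at m1 m2
      rw [e1] at m2
      exact (ih.tail m1).tail m2
    | pred i ih =>
      have m1 := dn (ga (gen Γ p ^ (-(i : ℤ))) x) (ga (gen Γ p ^ (-(i : ℤ))) y)
      have m2 := dn (ga (gen Γ p)⁻¹ (ga (gen Γ p ^ (-(i : ℤ))) y)) (ga (gen Γ p ^ (-(i : ℤ))) x)
      rw [e2] at m1 m2
      rw [e2] at m2
      exact (ih.tail m1).tail m2
  refine ⟨main, ?_⟩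
  have m1 := up (ga (gen Γ p ^ k) x) (ga (gen Γ p ^ k) y)
  rw [e1] at m1
  exact main.tail m1

/-- position of a leaf of the plaque with respect to the neighbours of `p` -/
theorem HX7_pos (h1 : HX1_stmt) (hG : GM1_stmt) (hG3 : GM3_stmt) (hG7 : GM7_stmt)
    (hB3 : BD3_stmt) (hB4 : BD4_stmt) {Γ : Subgroup SL(2, ℝ)}
    (hΓ : IsClosedSurfaceGroup Γ) (S : LeafSystem Γ) {p x y s : Bd × Bd} (hh : S.Hex p x y)
    (hs : S.CoPl p s) : ∃ (n : ℤ) (x' y' : Bd × Bd),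
      ((x' = ga (gen Γ p ^ n) x ∧ y' = ga (gen Γ p ^ n) y) ∨
        (x' = ga (gen Γ p ^ n) y ∧ y' = ga (gen Γ p ^ (n + 1)) x)) ∧
      S.Hex p x' y' ∧ (s = x' ∨ Cyc x'.1 s.1 y'.1) := by
  have hg := (hG Γ hΓ p (S.closed _ hh.1.1)).2.1
  set g := gen Γ p with hgdef
  obtain ⟨φ, -, hinj, g3, g4, -⟩ := hB3 p.2
  obtain ⟨hne, hrot, -, -, htr, -⟩ := id hB4
  have hφ : HX7_P p.2 φ := ⟨g3, g4⟩
  -- positions
  have hpos : ∀ q : Bd × Bd, S.CoPl p q → q.1 ≠ p.2 ∧ Cyc p.2 q.1 p.1 := by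
    intro q hq
    obtain ⟨a1, a2, a3, a4, a5⟩ := HX7_face hB4 hφ (p := q) (e := p.1) hq.2.2.1
    exact ⟨a1, (hφ.1 _ _ a1 a3).2 (by linarith)⟩
  have hord : ∀ q r : Bd × Bd, S.Hex p q r → S.CoPl p r → φ q.1 < φ r.1 := by
    intro q r hqr hr
    have c1 := hqr.1.2.2.1.1
    have c2 := hqr.2.2.2.1
    have c3 := (htr _ _ _ _ c1 c2).2
    exact (hφ.1 _ _ (hpos q hqr.1).1 (hpos r hr).1).1 c3
  have hsh := HX7_shift h1 hG hΓ S hh
  -- neighbours lie in the plaque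
  have hx : ∀ k : ℤ, S.CoPl p (ga (g ^ k) x) := fun k => (hsh k).1.1
  have hy : ∀ k : ℤ, S.CoPl p (ga (g ^ k) y) := fun k => (hsh k).2.1
  have hlt1 : ∀ k : ℤ, φ (ga (g ^ k) x).1 < φ (ga (g ^ k) y).1 :=
    fun k => hord _ _ (hsh k).1 (hy k)
  have hlt2 : ∀ k : ℤ, φ (ga (g ^ k) y).1 < φ (ga (g ^ (k + 1)) x).1 :=
    fun k => hord _ _ (hsh k).2 (hx (k + 1))
  have hmono : StrictMono (fun k : ℤ => φ (ga (g ^ k) x).1) :=
    strictMono_int_of_lt_succ (fun k => (hlt1 k).trans (hlt2 k))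
  have hs1 := hpos s hs
  have hx0 := hpos x hh.1
  obtain ⟨⟨n, hn⟩, ⟨m, hm⟩, -⟩ := hG7 g p x.1 s.1 hg hx0.2 hs1.2
  have hn' : φ s.1 < φ (ga (g ^ (n : ℤ)) x).1 := by
    have := (hφ.1 _ _ hs1.1 (hpos _ (hx n)).1).1 (by
      show Cyc p.2 s.1 (g ^ (n : ℤ) • x.1)
      rw [zpow_natCast]
      exact hn)
    exact this
  have hm' : φ (ga (g ^ (-(m : ℤ))) x).1 < φ s.1 := by
    have := (hφ.1 _ _ (hpos _ (hx (-(m : ℤ)))).1 hs1.1).1 (by
      show Cyc p.2 (g ^ (-(m : ℤ)) • x.1) s.1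
      rw [_root_.zpow_neg, zpow_natCast, ← inv_pow]
      exact hm)
    exact this
  obtain ⟨k, hk, hk2⟩ := Int.exists_greatest_of_bdd
    (P := fun k : ℤ => φ (ga (g ^ k) x).1 ≤ φ s.1)
    ⟨n, fun z hz => le_of_lt (hmono.lt_iff_lt.1 (lt_of_le_of_lt hz hn'))⟩
    ⟨-(m : ℤ), hm'.le⟩
  have hk3 : φ s.1 < φ (ga (g ^ (k + 1)) x).1 := by
    by_contra hcon
    have := hk2 (k + 1) (not_lt.1 hcon)
    omega
  -- equality of leaves with the same first endpoint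
  have heqv : ∀ q : Bd × Bd, S.CoPl p q → φ q.1 = φ s.1 → s = q := by
    intro q hq he
    have h5 := hinj q.1 s.1 (hpos q hq).1 hs1.1 he
    have h6 := S.closed s hs.2.1
    have h7 := S.closed q hq.2.1
    rw [h5] at h7
    exact Prod.ext h5.symm (hG3 Γ hΓ _ _ _ h6 h7)
  have fin : ∀ x' y' : Bd × Bd, S.Hex p x' y' → S.CoPl p y' → φ x'.1 ≤ φ s.1 →
      φ s.1 < φ y'.1 → (s = x' ∨ Cyc x'.1 s.1 y'.1) := by
    intro x' y' hxy hy' hle hlt
    rcases hle.eq_or_lt with he | hl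
    · exact Or.inl (heqv x' hxy.1 he)
    · right
      rw [hφ.2 _ _ _ (hpos _ hxy.1).1 hs1.1 (hpos _ hy').1]
      exact Or.inl ⟨hl, hlt⟩
  by_cases hc : φ s.1 < φ (ga (g ^ k) y).1
  · exact ⟨k, _, _, Or.inl ⟨rfl, rfl⟩, (hsh k).1, fin _ _ (hsh k).1 (hy k) hk hc⟩
  · exact ⟨k, _, _, Or.inr ⟨rfl, rfl⟩, (hsh k).2,
      fin _ _ (hsh k).2 (hx (k + 1)) (not_lt.1 hc) hk3⟩

theorem HX7 (hH1 : HX1_stmt) (hH2 : HX2_stmt) (hH4 : HX4_stmt) (hH6 : HX6_stmt)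
    (hP2 : PN2_stmt) (hG1 : GM1_stmt) (hG3 : GM3_stmt) (hG7 : GM7_stmt)
    (hB2 : BD2_stmt) (hB3 : BD3_stmt) (hB4 : BD4_stmt) (hB12 : BD12_stmt) : HX7_stmt := by
  intro Γ hΓ S hS
  obtain ⟨hrot, hsh, hush, heq, huniq, hww, hconn⟩ := hH1 Γ hΓ S
  obtain ⟨hsym, -, htri⟩ := hP2 Γ hΓ S
  obtain ⟨hne, hcrot, hasy, htot, htr, -⟩ := id hB4
  have hfirst : ∀ p x y u v, S.Hex p x y → S.Hex p u v → ∃ n : ℤ,
      (u = ga (gen Γ p ^ n) x ∧ v = ga (gen Γ p ^ n) y) ∨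
      (u = ga (gen Γ p ^ n) y ∧ v = ga (gen Γ p ^ (n + 1)) x) := by
    intro p x y u v hxy huv
    have hpu := huv.1
    obtain ⟨n, x', y', hn, hhex, hs⟩ := HX7_pos hH1 hG1 hG3 hG7 hB3 hB4 hΓ S hxy hpu
    rcases hs with rfl | hcyc
    · have hv : v = y' := huniq _ _ _ _ huv hhex
      subst hv
      exact ⟨n, hn⟩
    exfalso
    have hw := hww _ _ _ hhex
    -- the hexagons at `y'` and `x'`
    have hY : S.Hex y' p x' := hrot _ _ _ (hrot _ _ _ hhex)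
    have hYw : S.Hex y' x' (ga (gen Γ y') p) := hsh _ _ _ hY
    have hX : S.Hex x' y' p := hrot _ _ _ hhex
    have hgy := hG1 Γ hΓ y' (S.closed _ hYw.1.1)
    have hgx := hG1 Γ hΓ x' (S.closed _ hX.1.1)
    have huw : u ≠ ga (gen Γ y') p := fun h =>
      (hH6 Γ hΓ S hS p u v huv (gen Γ y') hgy.1).1 h.symm
    -- connectedness
    have hc1 : HexConn Γ (p, x', y') (ga (gen Γ y') p, y', x') := by
      refine Relation.ReflTransGen.tail (Relation.ReflTransGen.tail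
        (Relation.ReflTransGen.tail (Relation.ReflTransGen.tail
        (Relation.ReflTransGen.tail Relation.ReflTransGen.refl
          (Or.inl rfl)) (Or.inl rfl)) (Or.inr (Or.inl rfl))) (Or.inl rfl)) (Or.inl rfl)
    have hc2 := (hconn _ _ _ _ _ _ hhex hc1).2
    set w := ga (gen Γ y') p with hwdef
    have hcxy : Cyc y'.1 x'.1 w.1 := hYw.2.2.2.1
    have hcyp : Cyc y'.1 p.1 x'.1 := hY.2.2.2.1
    have hcpw : Cyc y'.1 p.1 w.1 := (htr _ _ _ _ hcyp hcxy).1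
    have hpw : S.CoPl p w := by
      rcases hc2 with h | h
      · exfalso
        rw [h] at hcpw
        exact (hne _ _ _ hcpw).2.1 rfl
      · exact h
    have huwC : S.CoPl w u := htri p w u hpw hpu (fun h => huw h.symm)
    have hux : S.CoPl x' u := htri p x' u hhex.1 hpu (fun h => (hne _ _ _ hcyc).1 (by rw [h]))
    have hpy : S.CoPl p y' := hsym _ _ hhex.2.2.1
    have huy : S.CoPl y' u := htri p y' u hpy hpu
      (fun h => (hne _ _ _ hcyc).2.1 (by rw [h]))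
    have hwu1 : w.1 ≠ u.1 := by
      have := huwC.2.2.1
      exact fun h => (hne _ _ _ this.2).1 h
    have hcxw : Cyc x'.1 w.1 y'.1 := hcrot _ _ _ hcxy
    have hwne : w.1 ≠ y'.1 := (hne _ _ _ hcxw).2.1
    have hune : u.1 ≠ y'.1 := (hne _ _ _ hcyc).2.1
    -- the pair `(p, u)` is unlinked with its translates
    have hunl : ∀ s, S.CoPl p s → ¬ Linked p.1 u.1 (gen Γ s • p.1) (gen Γ s • u.1) :=
      fun s hs => hH2 Γ hΓ S p u v _ _ _ huv (hH4 Γ hΓ S hS p u v huv s (Or.inr hs))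
    rcases htot y'.1 w.1 u.1 (fun h => hwne h.symm) hwu1 hune with hcase | hcase
    · -- `u` lies between `w` and `y'`
      apply hunl y' hpy
      refine Or.inl ?_
      have hattr := hgy.2.1
      have hbf : Cyc y'.2 u.1 y'.1 := by
        obtain ⟨φ, -, -, g3, g4, -⟩ := hB3 y'.2
        have hφ : HX7_P y'.2 φ := ⟨g3, g4⟩
        obtain ⟨u1, u2, he, u3, u4⟩ := HX7_face hB4 hφ (p := u) (e := y'.1) huy.2.2.1
        rw [hφ.1 _ _ u1 he]
        linarith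
      exact HX7_core1 (o := y'.2) (e := y'.1) (p := p) (w := w) (u := u) hB4 hB3
        hY.1.2.2.1 (hsym _ _ hYw.2.2.1).2.2.1 huy.2.2.1 hcpw hcase
        (hattr.2.2.2 u.1 hbf)
    · -- `u` lies between `x'` and `w`
      have hwx : w = ga (gen Γ x')⁻¹ p := hw.symm
      have hattr := hgx.2.1
      have hxw : S.CoPl x' w := hYw.2.1
      have hcu : Cyc x'.1 u.1 w.1 := by
        have t1 := hcrot _ _ _ (hcrot _ _ _ hcyc)
        have t2 := (htr _ _ _ _ t1 hcase).2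
        exact t2
      have hcp : Cyc x'.1 w.1 p.1 := by
        have t1 := hcrot _ _ _ (hcrot _ _ _ hcyp)
        exact (htr _ _ _ _ hcxw t1).1
      have hbf : Cyc x'.2 u.1 x'.1 := by
        obtain ⟨φ, -, -, g3, g4, -⟩ := hB3 x'.2
        have hφ : HX7_P x'.2 φ := ⟨g3, g4⟩
        obtain ⟨u1, u2, he, u3, u4⟩ := HX7_face hB4 hφ (p := u) (e := x'.1) hux.2.2.1
        rw [hφ.1 _ _ u1 he]
        linarith
      have hi1 : (gen Γ x')⁻¹ • x'.1 = x'.1 := by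
        rw [inv_smul_eq_iff]; exact hattr.2.1.symm
      have hi2 : (gen Γ x')⁻¹ • x'.2 = x'.2 := by
        rw [inv_smul_eq_iff]; exact hattr.2.2.1.symm
      have hbf' : Cyc x'.2 ((gen Γ x')⁻¹ • u.1) x'.1 := by
        have := (hB2 (gen Γ x')⁻¹ x'.2 u.1 x'.1).2 hbf
        rwa [hi1, hi2] at this
      have hbb := hattr.2.2.2 _ hbf'
      rw [smul_inv_smul] at hbb
      have hlink := HX7_core2 (o := x'.2) (e := x'.1) (p := p) (w := w) (u := u) hB4 hB3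
        (hsym _ _ hhex.1).2.2.1 hxw.2.2.1 hux.2.2.1 hcp hcu hbb
      have hL : Linked p.1 u.1 ((gen Γ x')⁻¹ • p.1) ((gen Γ x')⁻¹ • u.1) := by
        refine Or.inr ⟨hlink.1, ?_⟩
        have := hlink.2
        rw [hwx] at this
        exact this
      -- transport by the generator
      have hL2 : Linked (gen Γ x' • p.1) (gen Γ x' • u.1) p.1 u.1 := by
        have e1 : gen Γ x' • ((gen Γ x')⁻¹ • p.1) = p.1 := smul_inv_smul _ _
        have e2 : gen Γ x' • ((gen Γ x')⁻¹ • u.1) = u.1 := smul_inv_smul _ _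
        have tr : ∀ a b c : Bd, Cyc a b c → Cyc (gen Γ x' • a) (gen Γ x' • b) (gen Γ x' • c) :=
          fun a b c h => (hB2 _ a b c).2 h
        rcases hL with ⟨l1, l2⟩ | ⟨l1, l2⟩
        · left
          have m1 := tr _ _ _ l1
          have m2 := tr _ _ _ l2
          rw [e1] at m1
          rw [e2] at m2
          exact ⟨m1, m2⟩
        · right
          have m1 := tr _ _ _ l1
          have m2 := tr _ _ _ l2
          rw [e2] at m1
          rw [e1] at m2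
          exact ⟨m1, m2⟩
      exact hunl x' hhex.1 ((hB12.2.2.2.2.2.2.2.2.2.1 _ _ _ _).1 hL2)
  refine ⟨hfirst, ?_⟩
  intro p q r u v w hpqr huvw hpu
  obtain ⟨v', w', hc⟩ : ∃ v' w', HexConn Γ (p, q, r) (u, v', w') := by
    rcases hpu with rfl | hpu
    · exact ⟨q, r, Relation.ReflTransGen.refl⟩
    · exact hS.reach p q r hpqr u hpu
  have hh := (hconn _ _ _ _ _ _ hpqr hc).1
  obtain ⟨n, hn⟩ := hfirst u v' w' v w hh huvw
  have hcon : HexConn Γ (p, q, r) (u, v, w) := by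
    refine Relation.ReflTransGen.trans hc ?_
    rcases hn with ⟨rfl, rfl⟩ | ⟨rfl, rfl⟩
    · exact (HX7_conn u v' w' n).1
    · exact (HX7_conn u v' w' n).2
  exact ⟨hcon, hH2 Γ hΓ S p q r u v w hpqr hcon⟩

end AdSBend
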