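import Pool.Agent.helper69.AD.GS6

/-!
Module XG2: the length function of the bending data is a convex Hamiltonian.
-/

open scoped MatrixGroups LinearAlgebra.Projectivization
open Matrix UpperHalfPlane
open Pool.Agent.helper73.AD (PS Arc Word sg AData Family PreFamily Cone bs)

namespace AdSBend

noncomputable section

open LeafSystem

theorem XG2_qlin {J : Type} [Fintype J] (a : J → ℝ) (z : PS J) :
    qlin a z = ∑ j, a j * z.1 j := by
  simp [qlin]

theorem XG2_bound {J : Type} [Fintype J] (f : J → ℝ) : ∃ B : ℝ, ∀ j, f j ≤ B := by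
  obtain ⟨B, hB⟩ := (Set.finite_range f).bddAbove
  exact ⟨B, fun j => hB ⟨j, rfl⟩⟩

theorem XG2_pos {J : Type} [Fintype J] (f : J → ℝ) (hf : ∀ j, 0 < f j) :
    ∃ δ : ℝ, 0 < δ ∧ ∀ j, δ ≤ f j := by
  classical
  by_cases h : Nonempty J
  · obtain ⟨j, hj⟩ := Finite.exists_min f
    exact ⟨f j, hf j, hj⟩
  · exact ⟨1, one_pos, fun j => (h ⟨j⟩).elim⟩

theorem XG2 (hB1 : XB1_stmt) (hB2 : XB2_stmt) (hB3 : XB3_stmt) (hC5 : XC5_stmt) : XG2_stmt := by
  intro Γ hΓ lm lp hfill J K _ _ _ _ X hm hp hcov hreal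
  set b : K → ℝ := fun k => 2 * lp.w (X.D'.P k).1 (X.D'.P k).2 with hb
  set a : J → ℝ := fun j => 2 * lm.w (X.D.P j).1 (X.D.P j).2 with ha
  have hb0 : ∀ k, 0 ≤ b k := fun k => by
    simp only [hb]
    have := lp.nonneg (X.D'.P k).1 (X.D'.P k).2
    linarith
  have ha0 : ∀ j, 0 ≤ a j := fun j => by
    simp only [ha]
    have := lm.nonneg (X.D.P j).1 (X.D.P j).2
    linarith
  obtain ⟨hsm, hcv, hpt⟩ := hB3 J K X.w b hb0
  refine ⟨hsm, hcv, ?_, ?_⟩
  · -- slopes
    choose C hC0 hC using fun k => hB1 J (X.w k)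
    refine ⟨∑ k, b k * C k, ?_⟩
    intro z hz j
    rw [(hpt z hz).2]
    constructor
    · rw [ContinuousLinearMap.sum_apply]
      refine (Finset.abs_sum_le_sum_abs _ _).trans ?_
      refine Finset.sum_le_sum fun k _ => ?_
      rw [ContinuousLinearMap.smul_apply, smul_eq_mul, abs_mul, abs_of_nonneg (hb0 k)]
      exact mul_le_mul_of_nonneg_left (hC k z hz j).1 (hb0 k)
    · rw [ContinuousLinearMap.sum_apply]
      refine Finset.sum_le_sum fun k _ => ?_
      rw [ContinuousLinearMap.smul_apply, smul_eq_mul]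
      exact mul_le_mul_of_nonneg_left (hC k z hz j).2 (hb0 k)
  · -- properness
    intro R
    obtain ⟨B, hB⟩ := hC5 Γ hΓ lm lp hfill J K X hm hp R
    choose κ hκ using hcov
    have hbpos : ∀ j, 0 < b (κ j) := fun j => by
      simp only [hb]
      have := (hκ j).1
      linarith
    choose ι hι using fun j => (hκ j).2
    choose δ B' hδ hB' using fun j => hB2 J (X.w (κ j)) (R / b (κ j)) B
    obtain ⟨δ₀, hδ₀, hδ₀'⟩ := XG2_pos δ hδ
    obtain ⟨B₀, hB₀⟩ := XG2_bound B'
    refine ⟨δ₀, max B B₀, hδ₀, ?_⟩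
    intro z hz hR j
    have hzr : z ∈ X.Real := by rw [hreal]; exact hz
    obtain ⟨f, r, hconj, hcoord⟩ := hzr
    have hq : ∀ j, z.1 j ≤ B := hB f r z hconj hcoord hR
    have hqlin : 0 ≤ qlin a z := by
      rw [XG2_qlin]
      exact Finset.sum_nonneg fun j _ => mul_nonneg (ha0 j) (hz j).le
    have hterm : ∀ k, 0 ≤ b k * (X.w k).H z := fun k =>
      mul_nonneg (hb0 k) ((hpt z hz).1 k).le
    have hle : b (κ j) * (X.w (κ j)).H z ≤ R := by
      have h1 : b (κ j) * (X.w (κ j)).H z ≤ ∑ k, b k * (X.w k).H z :=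
        Finset.single_le_sum (f := fun k => b k * (X.w k).H z) (fun k _ => hterm k)
          (Finset.mem_univ (κ j))
      linarith
    have hH : (X.w (κ j)).H z ≤ R / b (κ j) := by
      rw [le_div_iff₀ (hbpos j)]
      linarith
    have := hB' j z hz hH hq (ι j)
    rw [hι j] at this
    exact ⟨(hδ₀' j).trans this.1, (hq j).trans (le_max_left _ _),
      (this.2.trans (hB₀ j)).trans (le_max_right _ _)⟩

end

end AdSBend
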