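import Pool.Agent.helper33.AG.Spec

set_option autoImplicit false

namespace Pool.Agent.AG

open N1f72dd46 Filter MeasureTheory Set Pool.Agent.QZ

theorem FA_empty {f C X h K c : ℝ} (hTB : TB f C) (hX : 1 ≤ X) (hh1 : 1 ≤ h) (hhX : h ≤ X) (hK : 1 ≤ K)
    (hhK : 40 * X ≤ K * h) (h4 : 6 * C * K ≤ 40 * X ^ (1 - c - f)) : Bad X h (X ^ (-c)) = 0 := by
  obtain ⟨hf1, hf2, hC, hb⟩ := hTB
  have hX0 : 0 < X := by linarith
  unfold Bad
  have hemp : {x : ℝ | x ∈ Icc X (2 * X) ∧ h * X ^ (-c) < |Chebyshev.theta (x + h) - Chebyshev.theta x - h|} = ∅ := by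
    ext x
    simp only [mem_ofPred_eq, mem_empty_iff_false, iff_false, not_and, not_lt]
    intro hx
    have hx1 : 1 ≤ x := le_trans hX hx.1
    have h3X : (3 * X) ^ f ≤ 3 * X ^ f := by
      rw [Real.mul_rpow (by norm_num) hX0.le]
      have : (3 : ℝ) ^ f ≤ 3 ^ (1 : ℝ) := Real.rpow_le_rpow_of_exponent_le (by norm_num) hf2.le
      rw [Real.rpow_one] at this
      exact mul_le_mul_of_nonneg_right this (Real.rpow_nonneg hX0.le f)
    have b1 := hb (x + h) (by linarith)
    have b2 := hb x hx1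
    have m1 : (x + h) ^ f ≤ (3 * X) ^ f := Real.rpow_le_rpow (by linarith) (by linarith [hx.2]) (by linarith)
    have m2 : x ^ f ≤ (3 * X) ^ f := Real.rpow_le_rpow (by linarith) (by linarith [hx.2]) (by linarith)
    have t1 : |Chebyshev.theta (x + h) - Chebyshev.theta x - h| ≤ 6 * C * X ^ f := by
      have e : Chebyshev.theta (x + h) - Chebyshev.theta x - h
          = (Chebyshev.theta (x + h) - (x + h)) - (Chebyshev.theta x - x) := by ring
      rw [e]
      refine (abs_sub _ _).trans ?_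
      have n1 := mul_le_mul_of_nonneg_left (m1.trans h3X) hC.le
      have n2 := mul_le_mul_of_nonneg_left (m2.trans h3X) hC.le
      linarith
    refine t1.trans ?_
    have e1 : X * X ^ (-c) = X ^ (1 - c - f) * X ^ f := by
      have : X * X ^ (-c) = X ^ (1 : ℝ) * X ^ (-c) := by rw [Real.rpow_one]
      rw [this, ← Real.rpow_add hX0, ← Real.rpow_add hX0]
      congr 1
      ring
    have hp : 0 < X ^ (-c) := Real.rpow_pos_of_pos hX0 _
    have hp2 : 0 < X ^ f := Real.rpow_pos_of_pos hX0 _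
    have k1 : 40 * X * X ^ (-c) ≤ K * h * X ^ (-c) := mul_le_mul_of_nonneg_right hhK hp.le
    have k2 : 6 * C * K * X ^ f ≤ 40 * X ^ (1 - c - f) * X ^ f := mul_le_mul_of_nonneg_right h4 hp2.le
    have k3 : K * (6 * C * X ^ f) ≤ K * (h * X ^ (-c)) := by
      calc K * (6 * C * X ^ f) = 6 * C * K * X ^ f := by ring
        _ ≤ 40 * X ^ (1 - c - f) * X ^ f := k2
        _ = 40 * X * X ^ (-c) := by rw [mul_assoc, ← e1]; ring
        _ ≤ K * h * X ^ (-c) := k1
        _ = K * (h * X ^ (-c)) := by ring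
    exact le_of_mul_le_mul_left k3 (by linarith)
  rw [hemp, measure_empty]

/-- the exceptional set -/
def FA_E (η d Y : ℝ) : Set ℝ := {a : ℝ | a ∈ Icc Y (Y + 1) ∧ η / 4 * mt d a ≤ |Z d a - mt d a|}

theorem FA_cover (hCV : CV_stmt) {X h η d : ℝ} (hX : 1 ≤ X) (hh1 : 1 ≤ h) (hhX : h ≤ X) (hη0 : 0 < η)
    (hη1 : η ≤ 1) (hd : d = η * h / (160 * X)) :
    {x : ℝ | x ∈ Icc X (2 * X) ∧ h * η < |Chebyshev.theta (x + h) - Chebyshev.theta x - h|} ⊆
      ⋃ k ∈ Finset.range (⌊320 / η⌋₊ + 1), {x : ℝ | x ∈ Icc X (2 * X) ∧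
        Real.log x + (k : ℝ) * d ∈ FA_E η d (Real.log X) ∪ FA_E η d (Real.log X + 1)} := by
  intro x hx
  obtain ⟨hx1, hx2⟩ := hx
  have hX0 : 0 < X := by linarith
  have hx0 : 0 < x := by linarith [hx1.1]
  have hd0 : 0 < d := by rw [hd]; positivity
  have hXd : 160 * X * d = η * h := by
    rw [hd]
    field_simp
  obtain ⟨k, hk1, hk2, hk3⟩ := hCV x h η d (by linarith [hx1.1]) (by linarith) (by linarith [hx1.1]) hη0 hη1 hd0
    (by nlinarith [hx1.2]) (by rw [mul_comm]; exact hx2)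
  have hkN : k ≤ ⌊320 / η⌋₊ := by
    apply Nat.le_floor
    rw [le_div_iff₀ hη0]
    have h1 : (k : ℝ) * (X * d) ≤ 2 * h := by
      refine le_trans ?_ hk2
      refine mul_le_mul_of_nonneg_left ?_ (Nat.cast_nonneg k)
      exact mul_le_mul_of_nonneg_right hx1.1 hd0.le
    have h2 : (k : ℝ) * (η * h) ≤ 320 * h := by
      calc (k : ℝ) * (η * h) = 160 * ((k : ℝ) * (X * d)) := by rw [← hXd]; ring
        _ ≤ 160 * (2 * h) := by linarith
        _ = 320 * h := by ring
    have h3 : (k : ℝ) * η * h ≤ 320 * h := by rw [mul_assoc]; exact h2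
    exact le_of_mul_le_mul_right h3 (by linarith)
  simp only [mem_iUnion, Finset.mem_range]
  refine ⟨k, by omega, hx1, ?_⟩
  have hl1 : Real.log X ≤ Real.log x := Real.log_le_log hX0 hx1.1
  have hl2 : Real.log x ≤ Real.log X + 1 := by
    have h1 : Real.log x ≤ Real.log (2 * X) := Real.log_le_log hx0 hx1.2
    rw [Real.log_mul (by norm_num) hX0.ne'] at h1
    have h2 : Real.log 2 ≤ 1 := by
      have := Real.log_two_lt_d9
      linarith
    linarith
  have hkd : 0 ≤ (k : ℝ) * d := by positivity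
  by_cases hc : Real.log x + (k : ℝ) * d ≤ Real.log X + 1
  · left
    exact ⟨⟨by linarith, hc⟩, hk3⟩
  · right
    exact ⟨⟨by linarith, by linarith⟩, hk3⟩

theorem FA_count (hMS : MS_stmt) {X d M R : ℝ} {N : ℕ} {S B : Set ℝ} (hX : 0 < X)
    (hS : S ⊆ ⋃ k ∈ Finset.range (N + 1), {x : ℝ | x ∈ Icc X (2 * X) ∧ Real.log x + (k : ℝ) * d ∈ B})
    (hM0 : 0 ≤ M) (hB : volume B ≤ ENNReal.ofReal M) (hN : ((N : ℝ) + 1) * (2 * X) * M ≤ R) :
    volume S ≤ ENNReal.ofReal R := by
  calc volume S ≤ volume (⋃ k ∈ Finset.range (N + 1), {x : ℝ | x ∈ Icc X (2 * X) ∧ Real.log x + (k : ℝ) * d ∈ B}) :=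
        measure_mono hS
    _ ≤ ∑ k ∈ Finset.range (N + 1), volume {x : ℝ | x ∈ Icc X (2 * X) ∧ Real.log x + (k : ℝ) * d ∈ B} :=
        measure_biUnion_finset_le _ _
    _ ≤ ∑ _k ∈ Finset.range (N + 1), ENNReal.ofReal ((2 * X) * M) := by
        refine Finset.sum_le_sum fun k _ => ?_
        refine (hMS B X ((k : ℝ) * d) hX).trans ?_
        rw [ENNReal.ofReal_mul (p := 2 * X) (by positivity)]
        exact mul_le_mul' le_rfl hB
    _ = ENNReal.ofReal (((N : ℝ) + 1) * (2 * X) * M) := by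
        have h1 : ((N : ℝ) + 1) = ((N + 1 : ℕ) : ℝ) := by push_cast; ring
        have h2 : ((N : ℝ) + 1) * (2 * X) * M = ((N + 1 : ℕ) : ℝ) * ((2 * X) * M) := by rw [h1]; ring
        rw [Finset.sum_const, Finset.card_range, nsmul_eq_mul, h2,
          ENNReal.ofReal_mul (p := ((N + 1 : ℕ) : ℝ)) (by positivity), ENNReal.ofReal_natCast]
    _ ≤ ENNReal.ofReal R := ENNReal.ofReal_le_ofReal hN

theorem FA (hEX : EX_stmt) (hCV : CV_stmt) (hMS : MS_stmt) : FA_stmt := by
  intro κ f C hκ hAvg hTB ε hε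
  obtain ⟨K, Y0, hK, hE⟩ := hEX κ f C hκ hAvg hTB (ε / 4) (by linarith)
  have hf1 := hTB.1
  have hf2 := hTB.2.1
  obtain ⟨c, hc⟩ : ∃ c : ℝ, c = min (ε / 32) ((1 - f) / 8) := ⟨_, rfl⟩
  have hc0 : 0 < c := by
    rw [hc]
    exact lt_min (by linarith) (by linarith)
  have hc1 : c ≤ ε / 32 := by rw [hc]; exact min_le_left _ _
  have hc2 : c ≤ (1 - f) / 8 := by rw [hc]; exact min_le_right _ _
  refine ⟨c, hc0, ?_⟩
  obtain ⟨E, hEdef⟩ : ∃ E : ℝ, E = Real.exp |2 * κ - 3 + ε / 4| := ⟨_, rfl⟩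
  have hE0 : 0 < E := by rw [hEdef]; positivity
  have hE1 : 1 ≤ E := by rw [hEdef]; exact Real.one_le_exp (abs_nonneg _)
  have ev1 : ∀ᶠ X : ℝ in atTop, 1 ≤ X := eventually_ge_atTop 1
  have ev2 : ∀ᶠ X : ℝ in atTop, Y0 ≤ Real.log X := Real.tendsto_log_atTop.eventually_ge_atTop Y0
  have ev3 : ∀ᶠ X : ℝ in atTop, 4 * K ≤ X ^ ((1 - f) / 2 - c) :=
    (tendsto_rpow_atTop (by linarith)).eventually_ge_atTop _
  have ev4 : ∀ᶠ X : ℝ in atTop, 6 * C * K / 40 ≤ X ^ (1 - c - f) :=
    (tendsto_rpow_atTop (by linarith)).eventually_ge_atTop _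
  have ev5 : ∀ᶠ X : ℝ in atTop, 321 * 10240 * K * E ≤ X ^ (5 * ε / 8) :=
    (tendsto_rpow_atTop (by linarith)).eventually_ge_atTop _
  filter_upwards [ev1, ev2, ev3, ev4, ev5] with X hX1 hX2 hX3 hX4 hX5 h hh1 hhX
  have hX0 : 0 < X := by linarith
  by_cases hcase : 40 * X ≤ K * h
  · rw [FA_empty hTB hX1 hh1 hhX hK hcase (by linarith)]
    exact zero_le
  · obtain ⟨η, hη⟩ : ∃ η : ℝ, η = X ^ (-c) := ⟨_, rfl⟩
    rw [← hη]
    have hη0 : 0 < η := by rw [hη]; exact Real.rpow_pos_of_pos hX0 _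
    have hη1 : η ≤ 1 := by rw [hη]; exact Real.rpow_le_one_of_one_le_of_nonpos hX1 (by linarith)
    obtain ⟨d, hd⟩ : ∃ d : ℝ, d = η * h / (160 * X) := ⟨_, rfl⟩
    have hd0 : 0 < d := by rw [hd]; positivity
    have hXd : 160 * X * d = η * h := by
      rw [hd]
      field_simp
    have hKd : K * d ≤ η / 4 := by
      have h1 : K * (160 * X * d) ≤ 40 * X * η := by
        rw [hXd]
        have : K * (η * h) = (K * h) * η := by ring
        rw [this]
        exact mul_le_mul_of_nonneg_right (by linarith) hη0.le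
      have h2 : X * (K * d) ≤ X * (η / 4) := by linarith
      exact le_of_mul_le_mul_left h2 hX0
    have hexp : ∀ s : ℝ, Real.exp (s * Real.log X) = X ^ s := by
      intro s
      rw [Real.rpow_def_of_pos hX0, mul_comm]
    have hKe : K * Real.exp (-((1 - f) / 2) * Real.log X) ≤ η / 4 := by
      rw [hexp]
      have e1 : X ^ (-((1 - f) / 2)) * X ^ ((1 - f) / 2 - c) = η := by
        rw [← Real.rpow_add hX0, hη]
        congr 1
        ring
      have hp : 0 < X ^ (-((1 - f) / 2)) := Real.rpow_pos_of_pos hX0 _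
      have h1 := mul_le_mul_of_nonneg_left hX3 hp.le
      rw [e1] at h1
      linarith
    have hKe' : K * Real.exp (-((1 - f) / 2) * (Real.log X + 1)) ≤ η / 4 := by
      refine le_trans ?_ hKe
      refine mul_le_mul_of_nonneg_left (Real.exp_le_exp.2 ?_) (by linarith)
      nlinarith
    have v1 := hE (Real.log X) d (η / 4) hX2 hd0 (by linarith) (by linarith) hKd hKe
    have v2 := hE (Real.log X + 1) d (η / 4) (by linarith) hd0 (by linarith) (by linarith) hKd hKe'
    obtain ⟨M, hM⟩ : ∃ M : ℝ, M = K * (E * X ^ (2 * κ - 3 + ε / 4)) / ((η / 4) ^ 2 * d) := ⟨_, rfl⟩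
    have hp3 : 0 < X ^ (2 * κ - 3 + ε / 4) := Real.rpow_pos_of_pos hX0 _
    have hM0 : 0 ≤ M := by rw [hM]; positivity
    have w1 : volume (FA_E η d (Real.log X)) ≤ ENNReal.ofReal M := by
      refine v1.trans (ENNReal.ofReal_le_ofReal ?_)
      rw [hM]
      refine div_le_div_of_nonneg_right ?_ (by positivity)
      refine mul_le_mul_of_nonneg_left ?_ (by linarith)
      rw [hexp]
      exact le_mul_of_one_le_left hp3.le hE1
    have w2 : volume (FA_E η d (Real.log X + 1)) ≤ ENNReal.ofReal M := by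
      refine v2.trans (ENNReal.ofReal_le_ofReal ?_)
      rw [hM]
      refine div_le_div_of_nonneg_right ?_ (by positivity)
      refine mul_le_mul_of_nonneg_left ?_ (by linarith)
      rw [mul_add, mul_one, Real.exp_add, hexp, mul_comm]
      refine mul_le_mul_of_nonneg_right ?_ hp3.le
      rw [hEdef]
      exact Real.exp_le_exp.2 (le_abs_self _)
    have w3 : volume (FA_E η d (Real.log X) ∪ FA_E η d (Real.log X + 1)) ≤ ENNReal.ofReal (2 * M) := by
      refine (measure_union_le _ _).trans ?_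
      rw [two_mul, ENNReal.ofReal_add hM0 hM0]
      exact add_le_add w1 w2
    refine FA_count hMS hX0 (FA_cover hCV hX1 hh1 hhX hη0 hη1 hd) (by linarith) w3 ?_
    -- numeric part
    have hN1 : ((⌊320 / η⌋₊ : ℝ) + 1) ≤ 321 / η := by
      have h1 : (⌊320 / η⌋₊ : ℝ) ≤ 320 / η := Nat.floor_le (by positivity)
      have h2 : 1 ≤ 1 / η := by
        rw [le_div_iff₀ hη0]
        linarith
      have h3 : 321 / η = 320 / η + 1 / η := by ring
      linarith
    have hM2 : 2 * M = 2 * 16 * 160 * K * E * (X ^ (2 * κ - 3 + ε / 4) * X) / (η ^ 3 * h) := by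
      rw [hM, hd]
      field_simp
      ring
    have e3 : X ^ (2 * κ - 3 + ε / 4) * X * X = X ^ (2 * κ - 1 + ε / 4) := by
      have h1 : X ^ (2 * κ - 1 + ε / 4) = X ^ (2 * κ - 3 + ε / 4) * X ^ (2 : ℝ) := by
        rw [← Real.rpow_add hX0]
        congr 1
        ring
      have h2 : X ^ (2 : ℝ) = X * X := by
        have : X ^ (2 : ℝ) = X ^ 2 := by exact_mod_cast Real.rpow_natCast X 2
        rw [this, sq]
      rw [h1, h2]
      ring
    have e4 : (1 : ℝ) / η ^ 4 ≤ X ^ (ε / 8) := by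
      have h1 : (1 : ℝ) / η ^ 4 = X ^ (4 * c) := by
        have h2 : η ^ 4 = X ^ (-(4 * c)) := by
          rw [hη, ← Real.rpow_natCast (X ^ (-c)) 4, ← Real.rpow_mul hX0.le]
          congr 1
          push_cast
          ring
        rw [h2, Real.rpow_neg hX0.le, one_div, inv_inv]
      rw [h1]
      exact Real.rpow_le_rpow_of_exponent_le hX1 (by linarith)
    have hpp : 0 < X ^ (2 * κ - 1 + ε / 4) := Real.rpow_pos_of_pos hX0 _
    calc ((⌊320 / η⌋₊ : ℝ) + 1) * (2 * X) * (2 * M)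
        ≤ 321 / η * (2 * X) * (2 * M) := by
          refine mul_le_mul_of_nonneg_right ?_ (by linarith)
          exact mul_le_mul_of_nonneg_right hN1 (by linarith)
      _ = 321 * 10240 * K * E * (X ^ (2 * κ - 3 + ε / 4) * X * X) * (1 / η ^ 4) / h := by
          rw [hM2]
          field_simp
          ring
      _ = 321 * 10240 * K * E * X ^ (2 * κ - 1 + ε / 4) * (1 / η ^ 4) / h := by rw [e3]
      _ ≤ X ^ (5 * ε / 8) * X ^ (2 * κ - 1 + ε / 4) * X ^ (ε / 8) / h := by
          refine div_le_div_of_nonneg_right ?_ (by linarith)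
          refine mul_le_mul ?_ e4 (by positivity) (by positivity)
          exact mul_le_mul_of_nonneg_right hX5 hpp.le
      _ = X ^ (2 * κ - 1 + ε) / h := by
          congr 1
          rw [← Real.rpow_add hX0, ← Real.rpow_add hX0]
          congr 1
          ring

end Pool.Agent.AG
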